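import Pool.Agent.H98.ABCR.Stmts

/-!
# ABCR, module PAD: the `q`-adic estimate for the auxiliary integer
-/

set_option autoImplicit false

namespace Pool.Agent.H98.ABCR

open Finset Polynomial

theorem pad_hasse_dvd (R : ℤ[X]) (M i : ℕ) (h : (X - 1 : ℤ[X]) ^ M ∣ R) :
    (X - 1 : ℤ[X]) ^ (M - i) ∣ hasseDeriv i R := by
  have e1 : (X - 1 : ℤ[X]) = X - C (1 : ℤ) := by simp
  rw [e1, X_sub_C_pow_dvd_iff] at h ⊢
  rw [X_pow_dvd_iff] at h ⊢
  intro d hd
  have h1 : ((hasseDeriv i R).comp (X + C (1 : ℤ))).coeff d =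
      (hasseDeriv d (hasseDeriv i R)).eval 1 := by
    rw [← taylor_coeff]
    rfl
  have h2 : hasseDeriv d (hasseDeriv i R) = (d + i).choose d • hasseDeriv (d + i) R := by
    have := congrArg (fun f => f R) (hasseDeriv_comp (R := ℤ) d i)
    simpa using this
  have h3 : (hasseDeriv (d + i) R).eval 1 = 0 := by
    rw [← taylor_coeff]
    exact h (d + i) (by omega)
  rw [h1, h2, eval_smul, h3, smul_zero]

theorem pad_hasse_eval (k r n i : ℕ) (p : ℕ → ℕ → ℤ) (u : ℤ) :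
    u ^ i * (hasseDeriv i (Rpoly k r n p)).eval u =
      ∑ j ∈ range (r + 1), ∑ l ∈ range (n + 1),
        p j l * ((k * l + j).choose i : ℤ) * u ^ (k * l + j) := by
  unfold Rpoly
  simp only [map_sum, eval_finsetSum, mul_sum]
  refine sum_congr rfl fun j _ => sum_congr rfl fun l _ => ?_
  rw [C_mul_X_pow_eq_monomial, hasseDeriv_monomial, eval_monomial]
  by_cases hi : i ≤ k * l + j
  · have h1 : u ^ (k * l + j) = u ^ i * u ^ (k * l + j - i) := by
      rw [← pow_add, Nat.add_sub_cancel' hi]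
    rw [h1]
    ring
  · rw [Nat.choose_eq_zero_of_lt (by omega)]
    simp

/-- division by `D` modulo `q ^ e` -/
theorem pad_inv (q e : ℕ) (D : ℤ) (hq : q.Prime) (hD : ¬ (q : ℤ) ∣ D) :
    ∃ D' : ℤ, (q : ℤ) ^ e ∣ D * D' - 1 := by
  have h1 : IsCoprime (q : ℤ) D := (Nat.prime_iff_prime_int.mp hq).coprime_iff_not_dvd.mpr hD
  obtain ⟨a, b, hab⟩ := h1.pow_left (m := e)
  exact ⟨b, ⟨-a, by linear_combination hab⟩⟩

theorem pad_dvd_of_mul (q e : ℕ) (a b : ℤ) (hq : q.Prime) (ha : ¬ (q : ℤ) ∣ a)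
    (h : (q : ℤ) ^ e ∣ a * b) : (q : ℤ) ^ e ∣ b := by
  have h1 : IsCoprime (q : ℤ) a := (Nat.prime_iff_prime_int.mp hq).coprime_iff_not_dvd.mpr ha
  exact (h1.pow_left (m := e)).dvd_of_dvd_mul_left h

theorem pad_lift (k q e : ℕ) (N D : ℤ) (hq : q.Prime) (hk : k.Prime) (hodd : Odd k)
    (hN : ¬ (q : ℤ) ∣ N) (h1 : (q : ℤ) ∣ N - D) (h2 : (q : ℤ) ^ e ∣ N ^ k - D ^ k) :
    (q : ℤ) ^ (e - if q = k then 1 else 0) ∣ N - D := by
  by_cases hqk : q = k
  · subst hqk
    rw [if_pos rfl]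
    have h3 := Int.emultiplicity_pow_sub_pow hq hodd h1 hN q
    have h4 := pow_dvd_iff_le_emultiplicity.mp h2
    rw [h3] at h4
    have h5 : emultiplicity q q = 1 := by
      rw [(Nat.finiteMultiplicity_iff.mpr ⟨hq.one_lt.ne', hq.pos⟩).emultiplicity_eq_multiplicity]
      rw [multiplicity_self]
      rfl
    rw [h5] at h4
    rw [pow_dvd_iff_le_emultiplicity]
    by_cases he : e = 0
    · subst he
      simp
    · obtain ⟨e', rfl⟩ : ∃ e', e = e' + 1 := ⟨e - 1, by omega⟩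
      rw [Nat.add_sub_cancel]
      push_cast at h4
      exact (ENat.add_le_add_iff_right (by simp)).mp h4
  · rw [if_neg hqk, Nat.sub_zero]
    have h3 : ¬ (q : ℤ) ∣ (k : ℤ) := by
      intro h
      have : q ∣ k := by exact_mod_cast h
      exact hqk ((Nat.prime_dvd_prime_iff_eq hq hk).mp this)
    have h4 := emultiplicity_pow_sub_pow_of_prime (Nat.prime_iff_prime_int.mp hq) h1 hN
      (n := k) (by simpa using h3)
    have h5 := pow_dvd_iff_le_emultiplicity.mp h2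
    rw [h4] at h5
    exact pow_dvd_iff_le_emultiplicity.mpr h5

theorem pad_thm : S_PAD := by
  intro k r n M i q e1 e2 p x1 y1 x2 y2 N D hq hk hodd hx1 hy1 hx2 hy2 hN hD h1 h2 he1 he2 hrel
    hND hR hi
  set m : ℤ := (q : ℤ) ^ e2 with hm
  -- step 1
  have s1 : m ∣ N ^ k * y1 + D ^ k * x1 := by
    have h3 : m ∣ x2 * (N ^ k * y1 + D ^ k * x1) := by
      have : x2 * (N ^ k * y1 + D ^ k * x1) = D ^ k * x1 * (x2 + y2) := by
        linear_combination hrel
      rw [this]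
      exact h2.mul_left _
    exact pad_dvd_of_mul q e2 x2 _ hq hx2 h3
  -- step 2
  have s2 : (q : ℤ) ^ (min e1 e2) ∣ N ^ k - D ^ k := by
    have h3 : (q : ℤ) ^ (min e1 e2) ∣ N ^ k * y1 + D ^ k * x1 :=
      (pow_dvd_pow _ (min_le_right _ _)).trans s1
    have h4 : (q : ℤ) ^ (min e1 e2) ∣ x1 + y1 := (pow_dvd_pow _ (min_le_left _ _)).trans h1
    have h5 : (q : ℤ) ^ (min e1 e2) ∣ y1 * (N ^ k - D ^ k) := by
      have : y1 * (N ^ k - D ^ k) = (N ^ k * y1 + D ^ k * x1) - D ^ k * (x1 + y1) := by ring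
      rw [this]
      exact dvd_sub h3 (h4.mul_left _)
    exact pad_dvd_of_mul q _ y1 _ hq hy1 h5
  -- step 3
  have s3 := pad_lift k q (min e1 e2) N D hq hk hodd hN hND s2
  set f : ℕ := min e1 e2 - (if q = k then 1 else 0) with hf
  -- the unit
  obtain ⟨D', hD'⟩ := pad_inv q e2 D hq hD
  set u : ℤ := N * D' with hu
  have c1 : N ≡ D * u [ZMOD m] := by
    rw [Int.modEq_iff_dvd]
    have : D * u - N = N * (D * D' - 1) := by rw [hu]; ring
    rw [this]
    exact hD'.mul_left _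
  have c2 : -x1 ≡ u ^ k * y1 [ZMOD m] := by
    have c3 : N ^ k ≡ (D * u) ^ k [ZMOD m] := c1.pow k
    have h3 : m ∣ D ^ k * (u ^ k * y1 + x1) := by
      have h4 : m ∣ (D * u) ^ k - N ^ k := Int.modEq_iff_dvd.mp c3
      have : D ^ k * (u ^ k * y1 + x1) = ((D * u) ^ k - N ^ k) * y1 + (N ^ k * y1 + D ^ k * x1) := by
        rw [mul_pow]; ring
      rw [this]
      exact dvd_add (h4.mul_right _) s1
    have h4 : m ∣ u ^ k * y1 + x1 := by
      have hDk : ¬ (q : ℤ) ∣ D ^ k := fun h => hD ((Nat.prime_iff_prime_int.mp hq).dvd_of_dvd_pow h)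
      exact pad_dvd_of_mul q e2 _ _ hq hDk h3
    rw [Int.modEq_iff_dvd]
    simpa using h4
  -- the value
  have c4 : Fval k r n i p x1 y1 N D ≡ y1 ^ n * D ^ r *
      (u ^ i * (hasseDeriv i (Rpoly k r n p)).eval u) [ZMOD m] := by
    rw [pad_hasse_eval]
    unfold Fval
    simp only [mul_sum]
    refine Int.ModEq.sum fun j hj => Int.ModEq.sum fun l hl => ?_
    have hj' : j ≤ r := by simpa [Nat.lt_succ_iff] using hj
    have hl' : l ≤ n := by simpa [Nat.lt_succ_iff] using hl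
    have e3 : y1 ^ n = y1 ^ l * y1 ^ (n - l) := by rw [← pow_add, Nat.add_sub_cancel' hl']
    have e4 : D ^ r = D ^ j * D ^ (r - j) := by rw [← pow_add, Nat.add_sub_cancel' hj']
    have e5 : y1 ^ n * D ^ r * (p j l * ((k * l + j).choose i : ℤ) * u ^ (k * l + j)) =
        p j l * ((k * l + j).choose i : ℤ) * (u ^ k * y1) ^ l * y1 ^ (n - l) * (D * u) ^ j *
          D ^ (r - j) := by
      rw [e3, e4, pow_add u, pow_mul, mul_pow, mul_pow]
      ring
    rw [e5]
    exact ((((Int.ModEq.refl _).mul (c2.pow l)).mul (Int.ModEq.refl _)).mul (c1.pow j)).mul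
      (Int.ModEq.refl _)
  -- divisibility of the polynomial value
  have s4 : (q : ℤ) ^ f ∣ u - 1 := by
    have hfe : f ≤ e2 := by rw [hf]; omega
    have h3 : (q : ℤ) ^ f ∣ D * (u - 1) := by
      have h4 : m ∣ D * u - N := Int.modEq_iff_dvd.mp c1
      have h5 : (q : ℤ) ^ f ∣ D * u - N := (pow_dvd_pow _ hfe).trans h4
      have : D * (u - 1) = (D * u - N) + (N - D) := by ring
      rw [this]
      exact dvd_add h5 s3
    exact pad_dvd_of_mul q f D _ hq hD h3
  have s5 : (q : ℤ) ^ (f * (M - i)) ∣ (hasseDeriv i (Rpoly k r n p)).eval u := by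
    obtain ⟨W, hW⟩ := pad_hasse_dvd (Rpoly k r n p) M i hR
    rw [hW, eval_mul, eval_pow, eval_sub, eval_X, eval_one, pow_mul]
    exact (pow_dvd_pow_of_dvd s4 _).mul_right _
  have s6 : (q : ℤ) ^ (min (f * (M - i)) e2) ∣ Fval k r n i p x1 y1 N D := by
    have h3 : m ∣ y1 ^ n * D ^ r * (u ^ i * (hasseDeriv i (Rpoly k r n p)).eval u) -
        Fval k r n i p x1 y1 N D := Int.modEq_iff_dvd.mp c4
    have h4 : (q : ℤ) ^ (min (f * (M - i)) e2) ∣
        y1 ^ n * D ^ r * (u ^ i * (hasseDeriv i (Rpoly k r n p)).eval u) :=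
      (((pow_dvd_pow _ (min_le_left _ _)).trans s5).mul_left _).mul_left _
    have h5 : (q : ℤ) ^ (min (f * (M - i)) e2) ∣
        y1 ^ n * D ^ r * (u ^ i * (hasseDeriv i (Rpoly k r n p)).eval u) -
        Fval k r n i p x1 y1 N D := (pow_dvd_pow _ (min_le_right _ _)).trans h3
    have := dvd_sub h4 h5
    simpa using this
  refine (pow_dvd_pow _ ?_).trans s6
  have hMi : 1 ≤ M - i := by omega
  rw [hf]
  split_ifs with hqk
  · have h7 : (min e1 e2 - 1) * (M - i) = min e1 e2 * (M - i) - (M - i) := by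
      rw [Nat.sub_mul, one_mul]
    rw [h7]
    have h8 : min e1 e2 * (M - i) = min ((M - i) * e1) ((M - i) * e2) := by
      rw [Nat.mul_comm, Nat.mul_min_mul_left]
    rw [h8]
    have h9 : e2 ≤ (M - i) * e2 := Nat.le_mul_of_pos_left _ hMi
    omega
  · have h8 : (min e1 e2 - 0) * (M - i) = min ((M - i) * e1) ((M - i) * e2) := by
      rw [Nat.sub_zero, Nat.mul_comm, Nat.mul_min_mul_left]
    rw [h8]
    have h9 : e2 ≤ (M - i) * e2 := Nat.le_mul_of_pos_left _ hMi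
    omega

end Pool.Agent.H98.ABCR
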