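import Pool.Agent.H98.ABCR.Stmts

/-!
# ABCR, module TRV: the trivial bound for the auxiliary integer
-/

set_option autoImplicit false

namespace Pool.Agent.H98.ABCR

open Finset Polynomial

theorem trv_thm : S_TRV := by
  intro k r n i p x y N D A H Q hp hx hy hN hD
  have hH : 0 ≤ H := (abs_nonneg _).trans hx
  have hQ : 0 ≤ Q := (abs_nonneg _).trans hN
  have hA : 0 ≤ A := (abs_nonneg _).trans (hp 0 (by simp) 0 (by simp))
  have key : ∀ j ∈ range (r + 1), ∀ l ∈ range (n + 1),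
      |((p j l : ℝ) * ((k * l + j).choose i : ℝ) * (-(x : ℝ)) ^ l * (y : ℝ) ^ (n - l) *
        (N : ℝ) ^ j * (D : ℝ) ^ (r - j))| ≤ A * 2 ^ (k * n + r) * H ^ n * Q ^ r := by
    intro j hj l hl
    have hj' : j ≤ r := by simpa [Nat.lt_succ_iff] using hj
    have hl' : l ≤ n := by simpa [Nat.lt_succ_iff] using hl
    have h1 : |(p j l : ℝ)| ≤ A := hp j hj l hl
    have h2 : ((k * l + j).choose i : ℝ) ≤ 2 ^ (k * n + r) := by
      have h3 : (k * l + j).choose i ≤ 2 ^ (k * l + j) := Nat.choose_le_two_pow _ _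
      have h4 : 2 ^ (k * l + j) ≤ 2 ^ (k * n + r) :=
        Nat.pow_le_pow_right (by norm_num) (Nat.add_le_add (Nat.mul_le_mul_left k hl') hj')
      exact_mod_cast h3.trans h4
    have h5 : |-(x : ℝ)| ^ l * |(y : ℝ)| ^ (n - l) ≤ H ^ n := by
      calc |-(x : ℝ)| ^ l * |(y : ℝ)| ^ (n - l) ≤ H ^ l * H ^ (n - l) := by
            rw [abs_neg]
            gcongr
        _ = H ^ n := by rw [← pow_add, Nat.add_sub_cancel' hl']
    have h6 : |(N : ℝ)| ^ j * |(D : ℝ)| ^ (r - j) ≤ Q ^ r := by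
      calc |(N : ℝ)| ^ j * |(D : ℝ)| ^ (r - j) ≤ Q ^ j * Q ^ (r - j) := by
            gcongr
        _ = Q ^ r := by rw [← pow_add, Nat.add_sub_cancel' hj']
    have h7 : |((k * l + j).choose i : ℝ)| = ((k * l + j).choose i : ℝ) :=
      abs_of_nonneg (by positivity)
    rw [abs_mul, abs_mul, abs_mul, abs_mul, abs_mul, abs_pow, abs_pow, abs_pow, abs_pow, h7]
    calc |(p j l : ℝ)| * ((k * l + j).choose i : ℝ) * |-(x : ℝ)| ^ l * |(y : ℝ)| ^ (n - l) *
          |(N : ℝ)| ^ j * |(D : ℝ)| ^ (r - j)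
        = |(p j l : ℝ)| * ((k * l + j).choose i : ℝ) * (|-(x : ℝ)| ^ l * |(y : ℝ)| ^ (n - l)) *
          (|(N : ℝ)| ^ j * |(D : ℝ)| ^ (r - j)) := by ring
      _ ≤ A * 2 ^ (k * n + r) * H ^ n * Q ^ r := by gcongr
  have hF : (Fval k r n i p x y N D : ℝ) = ∑ j ∈ range (r + 1), ∑ l ∈ range (n + 1),
      ((p j l : ℝ) * ((k * l + j).choose i : ℝ) * (-(x : ℝ)) ^ l * (y : ℝ) ^ (n - l) *
        (N : ℝ) ^ j * (D : ℝ) ^ (r - j)) := by
    unfold Fval
    push_cast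
    rfl
  rw [hF]
  calc |∑ j ∈ range (r + 1), ∑ l ∈ range (n + 1),
      ((p j l : ℝ) * ((k * l + j).choose i : ℝ) * (-(x : ℝ)) ^ l * (y : ℝ) ^ (n - l) *
        (N : ℝ) ^ j * (D : ℝ) ^ (r - j))|
      ≤ ∑ j ∈ range (r + 1), ∑ l ∈ range (n + 1), A * 2 ^ (k * n + r) * H ^ n * Q ^ r := by
        refine (abs_sum_le_sum_abs _ _).trans (sum_le_sum fun j hj => ?_)
        exact (abs_sum_le_sum_abs _ _).trans (sum_le_sum fun l hl => key j hj l hl)
    _ = A * (r + 1) * (n + 1) * 2 ^ (k * n + r) * H ^ n * Q ^ r := by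
        simp only [sum_const, card_range, nsmul_eq_mul]
        push_cast
        ring

end Pool.Agent.H98.ABCR
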